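import Pool.Agent.R489.HB.Stm

/-!
# MP_ffa969_co, piece SPLC: the two parts of a sphere cut along a separating triangle
-/

set_option autoImplicit false

namespace Pool.Agent.R193.HB

open Finset Pool.Agent.R489.HB

variable {W : Type} [DecidableEq W]

theorem mem_fc {Φ : Finset (Finset W)} {e f : Finset W} : f ∈ fc Φ e ↔ f ∈ Φ ∧ e ⊆ f := by
  unfold fc
  rw [Finset.mem_filter]

theorem mem_edg {Φ : Finset (Finset W)} {e : Finset W} :
    e ∈ edg Φ ↔ ∃ f ∈ Φ, e ⊆ f ∧ e.card = 2 := by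
  unfold edg
  simp only [Finset.mem_biUnion, Finset.mem_powersetCard]

theorem fc_ins {Φ : Finset (Finset W)} {T e : Finset W} (he : e ⊆ T) :
    fc (insert T Φ) e = insert T (fc Φ e) := by
  unfold fc
  rw [Finset.filter_insert, if_pos he]

theorem fc_ins' {Φ : Finset (Finset W)} {T e : Finset W} (he : ¬ e ⊆ T) :
    fc (insert T Φ) e = fc Φ e := by
  unfold fc
  rw [Finset.filter_insert, if_neg he]

/-- the complement of an even family is even -/
theorem even_compl {X Ψ : Finset (Finset W)} {e : Finset W} (hΨ : fc Ψ e ⊆ fc X e)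
    (hX : (fc X e).card = 2) (hev : Even (fc Ψ e).card) :
    Even ((fc X e) \ (fc Ψ e)).card := by
  rw [Finset.card_sdiff_of_subset hΨ, hX]
  have h1 := Finset.card_le_card hΨ
  rw [hX] at h1
  obtain ⟨k, hk⟩ := hev
  exact ⟨1 - k, by omega⟩

section
variable {Φ Φ1 Φ2 : Finset (Finset W)} {T' : Finset W}

theorem sub1 (hS : Sep Φ T' Φ1 Φ2) : Φ1 ⊆ Φ := by
  rw [← hS.uni]
  exact Finset.subset_union_left

theorem sub2 (hS : Sep Φ T' Φ1 Φ2) : Φ2 ⊆ Φ := by
  rw [← hS.uni]
  exact Finset.subset_union_right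

theorem two' (hΦ : IsTri Φ) (hT : T' ∉ Φ) (hS : Sep Φ T' Φ1 Φ2)
    {e : Finset W} (he : e ∈ edg Φ1) : (fc (insert T' Φ1) e).card = 2 := by
  obtain ⟨f, hf, hef, hc⟩ := mem_edg.1 he
  by_cases h : e ⊆ T'
  · rw [fc_ins h, Finset.card_insert_of_notMem, hS.one1 e (Finset.mem_powersetCard.2 ⟨h, hc⟩)]
    intro h1
    exact hT (sub1 hS (mem_fc.1 h1).1)
  · rw [fc_ins' h]
    have he' : e ∈ edg Φ := mem_edg.2 ⟨f, sub1 hS hf, hef, hc⟩
    have h1 : e ∉ T'.powersetCard 2 := fun h2 => h (Finset.mem_powersetCard.1 h2).1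
    have h2 : fc Φ2 e = ∅ := by
      rcases hS.side e he' h1 with h2 | h2
      · exfalso
        have : f ∈ fc Φ1 e := mem_fc.2 ⟨hf, hef⟩
        rw [h2] at this
        exact absurd this (Finset.notMem_empty _)
      · exact h2
    rw [← hΦ.two e he']
    congr 1
    ext g
    rw [mem_fc, mem_fc]
    constructor
    · exact fun h3 => ⟨sub1 hS h3.1, h3.2⟩
    · rintro ⟨h3, h4⟩
      refine ⟨?_, h4⟩
      rw [← hS.uni, Finset.mem_union] at h3
      rcases h3 with h3 | h3
      · exact h3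
      · exfalso
        have : g ∈ fc Φ2 e := mem_fc.2 ⟨h3, h4⟩
        rw [h2] at this
        exact absurd this (Finset.notMem_empty _)

/-- evenness at all edges of the sphere -/
theorem even_all {Ψ : Finset (Finset W)} (hΨ : Ψ ⊆ Φ1) {e : Finset W}
    (he : e ∈ edg Φ) (hev : e ∈ edg Φ1 → Even (fc Ψ e).card) : Even (fc Ψ e).card := by
  by_cases h : e ∈ edg Φ1
  · exact hev h
  · obtain ⟨f, _, _, hc⟩ := mem_edg.1 he
    have h1 : fc Ψ e = ∅ := by
      rw [Finset.eq_empty_iff_forall_notMem]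
      intro g hg
      rw [mem_fc] at hg
      exact h (mem_edg.2 ⟨g, hΨ hg.1, hg.2, hc⟩)
    rw [h1]
    simp

theorem link_aux (hΦ : IsTri Φ) (hc3 : T'.card = 3) (hS : Sep Φ T' Φ1 Φ2) (v : W)
    (Ψ : Finset (Finset W)) (hΨ : Ψ ⊆ fc (insert T' Φ1) {v})
    (hev : ∀ e ∈ edg Φ1, v ∈ e → Even (fc Ψ e).card) (hT' : T' ∉ Ψ) :
    Ψ = ∅ ∨ Ψ = fc (insert T' Φ1) {v} := by
  have h1 : ∀ f ∈ Ψ, f ∈ Φ1 ∧ v ∈ f := by
    intro f hf
    have h2 := mem_fc.1 (hΨ hf)
    rw [Finset.mem_insert, Finset.singleton_subset_iff] at h2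
    rcases h2.1 with h3 | h3
    · rw [h3] at hf
      exact absurd hf hT'
    · exact ⟨h3, h2.2⟩
  have h2 : Ψ ⊆ fc Φ {v} := fun f hf =>
    mem_fc.2 ⟨sub1 hS (h1 f hf).1, Finset.singleton_subset_iff.2 (h1 f hf).2⟩
  rcases hΦ.link v Ψ h2 (fun e he hve => even_all (fun f hf => (h1 f hf).1) he
    (fun h => hev e h hve)) with h3 | h3
  · left
    exact h3
  · by_cases hv : v ∈ T'
    · exfalso
      obtain ⟨w, hw, hwv⟩ : ∃ w ∈ T', w ≠ v := by
        by_contra hcon
        push Not at hcon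
        have : T' ⊆ {v} := fun w hw => Finset.mem_singleton.2 (hcon w hw)
        have := Finset.card_le_card this
        rw [hc3, Finset.card_singleton] at this
        omega
      have he : ({v, w} : Finset W) ∈ T'.powersetCard 2 := by
        rw [Finset.mem_powersetCard]
        refine ⟨?_, Finset.card_pair hwv.symm⟩
        intro x hx
        rw [Finset.mem_insert, Finset.mem_singleton] at hx
        rcases hx with rfl | rfl
        · exact hv
        · exact hw
      have h4 := hS.one2 _ he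
      obtain ⟨f, hf⟩ := Finset.card_pos.1 (by rw [h4]; exact Nat.one_pos)
      rw [mem_fc] at hf
      have h5 : f ∈ fc Φ {v} := mem_fc.2 ⟨sub2 hS hf.1, Finset.singleton_subset_iff.2
        (hf.2 (Finset.mem_insert_self _ _))⟩
      rw [← h3] at h5
      exact Finset.disjoint_left.1 hS.dis (h1 f h5).1 hf.1
    · right
      apply Finset.Subset.antisymm hΨ
      intro f hf
      rw [mem_fc, Finset.mem_insert, Finset.singleton_subset_iff] at hf
      rcases hf.1 with h4 | h4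
      · rw [h4] at hf
        exact absurd hf.2 hv
      · rw [h3, mem_fc]
        exact ⟨sub1 hS h4, Finset.singleton_subset_iff.2 hf.2⟩

theorem conn_aux (hΦ : IsTri Φ) (hc3 : T'.card = 3) (hS : Sep Φ T' Φ1 Φ2)
    (Ψ : Finset (Finset W)) (hΨ : Ψ ⊆ insert T' Φ1)
    (hev : ∀ e ∈ edg Φ1, Even (fc Ψ e).card) (hT' : T' ∉ Ψ) : Ψ = ∅ := by
  have h1 : ∀ f ∈ Ψ, f ∈ Φ1 := by
    intro f hf
    have h2 := hΨ hf
    rw [Finset.mem_insert] at h2
    rcases h2 with h3 | h3
    · rw [h3] at hf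
      exact absurd hf hT'
    · exact h3
  rcases hΦ.conn Ψ (fun f hf => sub1 hS (h1 f hf)) (fun e he => even_all h1 he
    (fun h => hev e h)) with h3 | h3
  · exact h3
  · exfalso
    obtain ⟨e, he⟩ : (T'.powersetCard 2).Nonempty := by
      rw [Finset.powersetCard_nonempty, hc3]
      omega
    have h4 := hS.one2 _ he
    obtain ⟨f, hf⟩ := Finset.card_pos.1 (by rw [h4]; exact Nat.one_pos)
    rw [mem_fc] at hf
    have h5 : f ∈ Ψ := by
      rw [h3]
      exact sub2 hS hf.1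
    exact Finset.disjoint_left.1 hS.dis (h1 f h5) hf.1

end

theorem SPLC : S_SPLB → S_SPLC := by
  intro hB W _ Φ Φ1 Φ2 T' hΦ hc3 hT hTe hS
  obtain ⟨-, -, hE, -, -⟩ := hB W Φ Φ1 Φ2 T' hΦ hc3 hT hTe hS
  rw [hE]
  refine ⟨Finset.insert_nonempty _ _, ?_, fun e he => two' hΦ hT hS he, ?_, ?_⟩
  · intro f hf
    rw [Finset.mem_insert] at hf
    rcases hf with rfl | hf
    · exact hc3
    · exact hΦ.three f (sub1 hS hf)
  · intro v Ψ hΨ hev
    by_cases hT' : T' ∈ Ψ
    · right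
      have key := link_aux hΦ hc3 hS v (fc (insert T' Φ1) {v} \ Ψ) Finset.sdiff_subset ?_
        (fun h => (Finset.mem_sdiff.1 h).2 hT')
      · rcases key with h1 | h1
        · exact Finset.Subset.antisymm hΨ (Finset.sdiff_eq_empty_iff_subset.1 h1)
        · exfalso
          have h2 := hΨ hT'
          rw [← h1, Finset.mem_sdiff] at h2
          exact h2.2 hT'
      · intro e he hve
        have h2 : fc (fc (insert T' Φ1) {v} \ Ψ) e = fc (insert T' Φ1) e \ fc Ψ e := by
          ext f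
          simp only [mem_fc, Finset.mem_sdiff, Finset.singleton_subset_iff]
          constructor
          · rintro ⟨⟨⟨a, b⟩, c⟩, d⟩
            exact ⟨⟨a, d⟩, fun h => c h.1⟩
          · rintro ⟨⟨a, b⟩, c⟩
            exact ⟨⟨⟨a, b hve⟩, fun h => c ⟨h, b⟩⟩, b⟩
        rw [h2]
        refine even_compl ?_ (two' hΦ hT hS he) (hev e he hve)
        intro f hf
        rw [mem_fc] at hf ⊢
        exact ⟨(mem_fc.1 (hΨ hf.1)).1, hf.2⟩
    · exact link_aux hΦ hc3 hS v Ψ hΨ hev hT'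
  · intro Ψ hΨ hev
    by_cases hT' : T' ∈ Ψ
    · right
      have key := conn_aux hΦ hc3 hS (insert T' Φ1 \ Ψ) Finset.sdiff_subset ?_
        (fun h => (Finset.mem_sdiff.1 h).2 hT')
      · exact Finset.Subset.antisymm hΨ (Finset.sdiff_eq_empty_iff_subset.1 key)
      · intro e he
        have h2 : fc (insert T' Φ1 \ Ψ) e = fc (insert T' Φ1) e \ fc Ψ e := by
          ext f
          simp only [mem_fc, Finset.mem_sdiff]
          constructor
          · rintro ⟨⟨a, c⟩, d⟩
            exact ⟨⟨a, d⟩, fun h => c h.1⟩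
          · rintro ⟨⟨a, b⟩, c⟩
            exact ⟨⟨a, fun h => c ⟨h, b⟩⟩, b⟩
        rw [h2]
        refine even_compl ?_ (two' hΦ hT hS he) (hev e he)
        intro f hf
        rw [mem_fc] at hf ⊢
        exact ⟨hΨ hf.1, hf.2⟩
    · left
      exact conn_aux hΦ hc3 hS Ψ hΨ hev hT'

end Pool.Agent.R193.HB
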